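import Pool.Agent.Gq2.Sch

/-!
# A power with a large centraliser
-/

namespace Pool.Agent.Gq2

open Pool.Agent.CTm Filter

variable {G : Type*} [Group G] {S : Set G}

-- BEGIN ce1
private theorem ce1_one (n : ℕ) : (1 : G) ∈ ball S n := ⟨[], by simp, by simp, rfl⟩

private theorem ce1_inv {g : G} {n : ℕ} (hg : g ∈ ball S n) : g⁻¹ ∈ ball S n := by
  obtain ⟨l, h1, h2, rfl⟩ := hg
  refine ⟨(l.map fun y => y⁻¹).reverse, by simpa using h1, ?_, ?_⟩
  · intro y hy
    rw [List.mem_reverse, List.mem_map] at hy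
    obtain ⟨z, hz, rfl⟩ := hy
    rcases h2 z hz with h3 | h3
    · right
      rwa [inv_inv]
    · left
      exact h3
  · rw [List.prod_inv_reverse]

private theorem ce1_pow {g : G} {n : ℕ} (hg : g ∈ ball S n) (j : ℕ) : g ^ j ∈ ball S (j * n) := by
  induction j with
  | zero => simpa using ce1_one 0
  | succ j ih =>
    rw [pow_succ, Nat.succ_mul]
    exact ball_mul ih hg

/-- translation numbers -/
theorem exp_le {k : G} {c0 : ℕ} (hk : ∀ j l : ℕ, k ^ j ∈ ball S l → j ≤ c0 * l) {h : G} {r : ℕ}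
    (hh : h ∈ ball S r) {m n : ℕ} (hs : h * k ^ m * h⁻¹ ∈ ball S n) : m ≤ c0 * n := by
  by_contra hlt
  push Not at hlt
  have key : ∀ j : ℕ, m * j ≤ c0 * (j * n + 2 * r) := by
    intro j
    apply hk
    have h1 : (h * k ^ m * h⁻¹) ^ j ∈ ball S (j * n) := ce1_pow hs j
    have h2 : h⁻¹ * (h * k ^ m * h⁻¹) ^ j * h = k ^ (m * j) := by
      rw [conj_pow, ← pow_mul]
      group
    rw [← h2]
    exact ball_mono (by omega) (ball_mul (ball_mul (ce1_inv hh) h1) hh)
  have h1 := key (2 * c0 * r + 1)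
  have h2 : (c0 * n + 1) * (2 * c0 * r + 1) ≤ m * (2 * c0 * r + 1) :=
    Nat.mul_le_mul_right _ hlt
  nlinarith
-- END ce1

-- BEGIN ce2
private theorem ce2_inj {k : G} {c0 : ℕ} (hk : ∀ j l : ℕ, k ^ j ∈ ball S l → j ≤ c0 * l) {i j : ℕ}
    (hij : i ≤ j) (h : k ^ i = k ^ j) : i = j := by
  obtain ⟨d, rfl⟩ := Nat.exists_eq_add_of_le hij
  have h1 : k ^ d = 1 := by
    rw [pow_add] at h
    exact mul_eq_left.1 h.symm
  have h2 := hk d 0 (by rw [h1]; exact ce1_one 0)
  omega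

/-- if no positive power of the conjugate of `k` is short, the stabiliser does not meet the ball -/
private theorem ce2_stab {k h g g' : G} {n : ℕ} (hno : ¬ ∃ m : ℕ, 1 ≤ m ∧ h * k ^ m * h⁻¹ ∈ ball S (2 * n))
    (hg : g ∈ ball S n) (hg' : g' ∈ ball S n)
    (he : (QuotientGroup.mk (g * h) : G ⧸ Subgroup.zpowers k) = QuotientGroup.mk (g' * h)) : g = g' := by
  rw [QuotientGroup.eq, Subgroup.mem_zpowers_iff] at he
  obtain ⟨z, hz⟩ := he
  have h1 : h * k ^ z * h⁻¹ = g⁻¹ * g' := by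
    rw [hz]
    group
  have hb : g⁻¹ * g' ∈ ball S (2 * n) := ball_mono (by omega) (ball_mul (ce1_inv hg) hg')
  rcases lt_trichotomy z 0 with hz0 | hz0 | hz0
  · exfalso
    obtain ⟨m, hm⟩ := Int.eq_ofNat_of_zero_le (show (0 : ℤ) ≤ -z by omega)
    refine hno ⟨m, by omega, ?_⟩
    have h2 : h * k ^ m * h⁻¹ = (g⁻¹ * g')⁻¹ := by
      rw [← h1, show z = -(m : ℤ) by omega, zpow_neg, zpow_natCast]
      group
    rw [h2]
    exact ce1_inv hb
  · rw [hz0, zpow_zero, mul_one, mul_inv_cancel] at h1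
    exact (inv_mul_eq_one.1 h1.symm)
  · exfalso
    obtain ⟨m, hm⟩ := Int.eq_ofNat_of_zero_le hz0.le
    refine hno ⟨m, by omega, ?_⟩
    rw [hm, zpow_natCast] at h1
    rw [h1]
    exact hb

/-- many points of the Schreier graph have a short element in their stabiliser -/
theorem many_stab (hS : S.Finite) (hgen : Subgroup.closure S = ⊤) {k : G} {c0 lk : ℕ}
    (hk : ∀ j l : ℕ, k ^ j ∈ ball S l → j ≤ c0 * l) (hlk : k ∈ ball S lk) (hlk1 : 1 ≤ lk)
    (hfi : ¬ (Subgroup.zpowers k).FiniteIndex) {R n w : ℕ} (hn : lk ≤ n) (hR : 6 * n ≤ R)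
    (hgr : growth S (4 * R) ≤ R ^ 2 * w) (hbig : 12 * lk * n * w < growth S n) :
    ∃ T : Finset G, R ≤ 12 * n * T.card ∧ (∀ h ∈ T, h ∈ ball S R) ∧
      (∀ h ∈ T, ∀ h' ∈ T, (QuotientGroup.mk h : G ⧸ Subgroup.zpowers k) = QuotientGroup.mk h' → h = h') ∧
      ∀ h ∈ T, ∃ m : ℕ, 1 ≤ m ∧ h * k ^ m * h⁻¹ ∈ ball S (2 * n) := by
  classical
  obtain ⟨h, hh1, hh2⟩ := exists_geod hS hgen hfi R
  have hn1 : 1 ≤ n := hlk1.trans hn
  have hR0 : 0 < R := by omega
  set q : ℕ := R / (3 * n) with hq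
  have hq1 : 3 * n * q ≤ R := Nat.mul_div_le R (3 * n)
  have hq2 : R < 3 * n * (q + 1) := Nat.lt_mul_div_succ R (by omega)
  have ht : ∀ i, i < q + 1 → 3 * n * i ≤ R := fun i hi =>
    (Nat.mul_le_mul_left _ (by omega : i ≤ q)).trans hq1
  -- the bad indices
  set good : ℕ → Prop := fun i => ∃ m : ℕ, 1 ≤ m ∧ h (3 * n * i) * k ^ m * (h (3 * n * i))⁻¹ ∈ ball S (2 * n)
    with hgood
  set I : Finset ℕ := Finset.range (q + 1) with hI
  set B : Finset ℕ := I.filter fun i => ¬ good i with hB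
  set X : Set (G ⧸ Subgroup.zpowers k) := (QuotientGroup.mk : G → G ⧸ Subgroup.zpowers k) '' ball S (2 * R)
    with hX
  have hXf : X.Finite := (ball_finite hS _).image _
  have hNf : (ball S n).Finite := ball_finite hS n
  -- disjoint balls
  have hsep : ∀ i ∈ I, ∀ j ∈ I, ∀ g ∈ ball S n, ∀ g' ∈ ball S n,
      (QuotientGroup.mk (g * h (3 * n * i)) : G ⧸ Subgroup.zpowers k) =
        QuotientGroup.mk (g' * h (3 * n * j)) → i < j → False := by
    intro i hi j hj g hg g' hg' he hij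
    have hi' := ht i (by simpa [hI] using hi)
    have hj' := ht j (by simpa [hI] using hj)
    have h3 : (QuotientGroup.mk ((g'⁻¹ * g) * h (3 * n * i)) : G ⧸ Subgroup.zpowers k) =
        QuotientGroup.mk (h (3 * n * j)) := by
      rw [QuotientGroup.eq] at he ⊢
      have h5 : (g'⁻¹ * g * h (3 * n * i))⁻¹ * h (3 * n * j) =
        (g * h (3 * n * i))⁻¹ * (g' * h (3 * n * j)) := by group
      rw [h5]
      exact he
    have h4 := hh2 _ _ _ hi' hj' _ (ball_mul (ce1_inv hg') hg) h3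
    have h5 : 3 * n * (i + 1) ≤ 3 * n * j := Nat.mul_le_mul_left _ (by omega)
    rw [Nat.mul_add] at h5
    omega
  have hcount : B.card * growth S n ≤ X.ncard := by
    have h1 : (B ×ˢ hNf.toFinset).card ≤ hXf.toFinset.card := by
      refine Finset.card_le_card_of_injOn
        (fun p : ℕ × G => (QuotientGroup.mk (p.2 * h (3 * n * p.1)) : G ⧸ Subgroup.zpowers k)) ?_ ?_
      · rintro ⟨i, g⟩ hp
        rw [Finset.mem_coe, Finset.mem_product, Set.Finite.mem_toFinset] at hp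
        rw [Finset.mem_coe, Set.Finite.mem_toFinset]
        have hi : i < q + 1 := by
          have := (Finset.mem_filter.1 hp.1).1
          simpa [hI] using this
        refine ⟨g * h (3 * n * i), ball_mono ?_ (ball_mul hp.2 (hh1 _ (ht i hi))), rfl⟩
        have := ht i hi
        omega
      · rintro ⟨i, g⟩ hp ⟨j, g'⟩ hp' he
        rw [Finset.mem_coe, Finset.mem_product, Set.Finite.mem_toFinset] at hp hp'
        have hi := (Finset.mem_filter.1 hp.1)
        have hj := (Finset.mem_filter.1 hp'.1)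
        have he' : (QuotientGroup.mk (g * h (3 * n * i)) : G ⧸ Subgroup.zpowers k) =
          QuotientGroup.mk (g' * h (3 * n * j)) := he
        have hij : i = j := by
          rcases lt_trichotomy i j with h6 | h6 | h6
          · exact (hsep i hi.1 j hj.1 g hp.2 g' hp'.2 he' h6).elim
          · exact h6
          · exact (hsep j hj.1 i hi.1 g' hp'.2 g hp.2 he'.symm h6).elim
        subst hij
        have hgg : g = g' := ce2_stab hi.2 hp.2 hp'.2 he'
        rw [hgg]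
    rw [Finset.card_product, ← Set.ncard_eq_toFinset_card _ hNf, ← Set.ncard_eq_toFinset_card _ hXf] at h1
    exact h1
  -- the number of cosets
  set z : ℕ := 2 * R / lk with hz
  have hz1 : R ≤ lk * z := by
    have h1 := Nat.div_add_mod (2 * R) lk
    have h2 := Nat.mod_lt (2 * R) (show 0 < lk by omega)
    rw [← hz] at h1
    omega
  have hZ : X.ncard * z ≤ growth S (4 * R) := by
    set Z : Set G := (fun j : ℕ => k ^ j) '' (Finset.range z : Set ℕ) with hZd
    have hZf : Z.Finite := (Finset.finite_toSet _).image _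
    have hZc : Z.ncard = z := by
      rw [hZd, Set.InjOn.ncard_image (f := fun j : ℕ => k ^ j), Set.ncard_coe_finset, Finset.card_range]
      intro i _ j _ hij
      rcases le_total i j with h6 | h6
      · exact ce2_inj hk h6 hij
      · exact (ce2_inj hk h6 hij.symm).symm
    have h1 := coset_count (K := Subgroup.zpowers k) (ball_finite hS (2 * R)) hZf (by
      rintro _ ⟨j, _, rfl⟩
      exact Subgroup.npow_mem_zpowers k j)
    rw [hZc] at h1
    refine h1.trans (Set.ncard_le_ncard ?_ (ball_finite hS _))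
    rintro _ ⟨x, hx, _, ⟨j, hj, rfl⟩, rfl⟩
    rw [Finset.mem_coe, Finset.mem_range] at hj
    have h2 : j * lk ≤ 2 * R := by
      have h3 : j * lk ≤ z * lk := Nat.mul_le_mul_right _ hj.le
      exact h3.trans (Nat.div_mul_le_self _ _)
    exact ball_mono (by omega) (ball_mul hx (ce1_pow hlk j))
  have hw0 : 0 < w := by
    rcases Nat.eq_zero_or_pos w with h0 | h0
    · exfalso
      rw [h0, Nat.mul_zero] at hgr
      have h1 : 0 < growth S (4 * R) := (Set.ncard_pos (ball_finite hS _)).2 ⟨1, ce1_one _⟩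
      omega
    · exact h0
  have hXR : X.ncard ≤ lk * R * w := by
    have h1 : X.ncard * R ≤ lk * R * w * R := by
      calc X.ncard * R ≤ X.ncard * (lk * z) := Nat.mul_le_mul_left _ hz1
        _ = lk * (X.ncard * z) := by ring
        _ ≤ lk * (R ^ 2 * w) := Nat.mul_le_mul_left _ (hZ.trans hgr)
        _ = lk * R * w * R := by ring
    exact Nat.le_of_mul_le_mul_right h1 hR0
  have hb : 12 * n * B.card ≤ R := by
    have h1 : 12 * n * B.card * (lk * w) ≤ R * (lk * w) := by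
      calc 12 * n * B.card * (lk * w) = B.card * (12 * lk * n * w) := by ring
        _ ≤ B.card * growth S n := Nat.mul_le_mul_left _ hbig.le
        _ ≤ lk * R * w := hcount.trans hXR
        _ = R * (lk * w) := by ring
    exact Nat.le_of_mul_le_mul_right h1 (Nat.mul_pos (by omega) hw0)
  -- the good ones
  have hinj : ∀ i ∈ I, ∀ j ∈ I, (QuotientGroup.mk (h (3 * n * i)) : G ⧸ Subgroup.zpowers k) =
      QuotientGroup.mk (h (3 * n * j)) → i = j := by
    intro i hi j hj he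
    have he' : (QuotientGroup.mk (1 * h (3 * n * i)) : G ⧸ Subgroup.zpowers k) =
      QuotientGroup.mk (1 * h (3 * n * j)) := by rw [one_mul, one_mul]; exact he
    rcases lt_trichotomy i j with h6 | h6 | h6
    · exact (hsep i hi j hj 1 (ce1_one _) 1 (ce1_one _) he' h6).elim
    · exact h6
    · exact (hsep j hj i hi 1 (ce1_one _) 1 (ce1_one _) he'.symm h6).elim
  refine ⟨(I.filter good).image fun i => h (3 * n * i), ?_, ?_, ?_, ?_⟩
  · rw [Finset.card_image_of_injOn]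
    · have h1 : (I.filter good).card + B.card = q + 1 := by
        rw [hB, Finset.card_filter_add_card_filter_not, hI, Finset.card_range]
      have h2 : 12 * n * ((I.filter good).card + B.card) = 12 * n * (q + 1) := by rw [h1]
      rw [Nat.mul_add] at h2
      have h3 : 12 * n * (q + 1) = 4 * (3 * n * (q + 1)) := by ring
      omega
    · intro i hi j hj he
      rw [Finset.mem_coe] at hi hj
      exact hinj i (Finset.mem_filter.1 hi).1 j (Finset.mem_filter.1 hj).1 (congrArg _ he)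
  · intro g hg
    obtain ⟨i, hi, rfl⟩ := Finset.mem_image.1 hg
    have hi' : i < q + 1 := by simpa [hI] using (Finset.mem_filter.1 hi).1
    exact ball_mono (ht i hi') (hh1 _ (ht i hi'))
  · intro g hg g' hg' he
    obtain ⟨i, hi, rfl⟩ := Finset.mem_image.1 hg
    obtain ⟨j, hj, rfl⟩ := Finset.mem_image.1 hg'
    rw [hinj i (Finset.mem_filter.1 hi).1 j (Finset.mem_filter.1 hj).1 he]
  · intro g hg
    obtain ⟨i, hi, rfl⟩ := Finset.mem_image.1 hg
    exact (Finset.mem_filter.1 hi).2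
-- END ce2

-- BEGIN ce3
private theorem ce3_pow {k : G} {lk : ℕ} (hlk : k ∈ ball S lk) (j : ℕ) : k ^ j ∈ ball S (j * lk) := by
  induction j with
  | zero => exact ⟨[], by simp, by simp, by simp⟩
  | succ j ih =>
    have h := ball_mul ih hlk
    rw [pow_succ, show (j + 1) * lk = j * lk + lk by ring]
    exact h

private theorem ce3_inv {g : G} {n : ℕ} (hg : g ∈ ball S n) : g⁻¹ ∈ ball S n := by
  obtain ⟨l, h1, h2, rfl⟩ := hg
  refine ⟨(l.map fun y => y⁻¹).reverse, by simpa using h1, ?_, ?_⟩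
  · intro y hy
    rw [List.mem_reverse, List.mem_map] at hy
    obtain ⟨z, hz, rfl⟩ := hy
    rcases h2 z hz with h3 | h3
    · right
      rwa [inv_inv]
    · left
      exact h3
  · rw [List.prod_inv_reverse]

/-- then the centraliser of a power of `k` has finite index -/
theorem cent_fi (hS : S.Finite) (hgen : Subgroup.closure S = ⊤) {k : G} {c0 lk : ℕ}
    (hk : ∀ j l : ℕ, k ^ j ∈ ball S l → j ≤ c0 * l) (hlk : k ∈ ball S lk) (hlk1 : 1 ≤ lk)
    {R n w : ℕ} (hn : lk ≤ n) (hR : 6 * n ≤ R) (hgr : growth S (4 * R) ≤ R ^ 2 * w)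
    (hR2 : 48 * lk * c0 * n ^ 2 * w * growth S (2 * n) < R) {T : Finset G} (hT1 : R ≤ 12 * n * T.card)
    (hT2 : ∀ h ∈ T, h ∈ ball S R)
    (hT3 : ∀ h ∈ T, ∀ h' ∈ T, (QuotientGroup.mk h : G ⧸ Subgroup.zpowers k) = QuotientGroup.mk h' → h = h')
    (hT4 : ∀ h ∈ T, ∃ m : ℕ, 1 ≤ m ∧ h * k ^ m * h⁻¹ ∈ ball S (2 * n)) :
    ∃ m : ℕ, 1 ≤ m ∧ (Subgroup.centralizer ({k ^ m} : Set G)).FiniteIndex := by
  classical
  have hRpos : 0 < R := by omega
  choose! m hm1 hm2 using hT4
  have hmle : ∀ h ∈ T, m h ≤ c0 * (2 * n) := fun h hh => exp_le hk (hT2 h hh) (hm2 h hh)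
  set Bf : Finset G := (ball_finite hS (2 * n)).toFinset with hBf
  have hBc : Bf.card = growth S (2 * n) := by
    rw [growth, Set.ncard_eq_toFinset_card _ (ball_finite hS (2 * n))]
  set I : Finset (G × ℕ) := Bf ×ˢ Finset.Icc 1 (c0 * (2 * n)) with hI
  have hmaps : ∀ h ∈ T, (h * k ^ m h * h⁻¹, m h) ∈ I := by
    intro h hh
    rw [hI, Finset.mem_product, Finset.mem_Icc]
    exact ⟨by simpa [hBf] using hm2 h hh, hm1 h hh, hmle h hh⟩
  have hIc : I.card = growth S (2 * n) * (c0 * (2 * n)) := by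
    rw [hI, Finset.card_product, hBc, Nat.card_Icc]
    simp
  have hTne : T.Nonempty := by
    rw [Finset.nonempty_iff_ne_empty]
    rintro rfl
    simp at hT1
    omega
  obtain ⟨t0, ht0⟩ := hTne
  -- the largest fibre
  obtain ⟨y, hyI, hy⟩ : ∃ y ∈ I, T.card ≤ I.card * (T.filter fun h => (h * k ^ m h * h⁻¹, m h) = y).card := by
    by_contra hcon
    push Not at hcon
    have h1 := Finset.card_eq_sum_card_fiberwise (f := fun h => (h * k ^ m h * h⁻¹, m h)) (s := T) (t := I)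
      (fun h hh => hmaps h hh)
    have hIne : I.Nonempty := ⟨_, hmaps t0 ht0⟩
    have h2 : I.card * T.card < I.card * T.card := by
      calc I.card * T.card = ∑ y ∈ I, I.card * (T.filter fun h => (h * k ^ m h * h⁻¹, m h) = y).card := by
            rw [← Finset.mul_sum, ← h1]
        _ < ∑ y ∈ I, T.card := Finset.sum_lt_sum_of_nonempty hIne hcon
        _ = I.card * T.card := by rw [Finset.sum_const, smul_eq_mul]
    exact lt_irrefl _ h2
  set F : Finset G := T.filter fun h => (h * k ^ m h * h⁻¹, m h) = y with hF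
  have hFs : ∀ h ∈ F, h * k ^ y.2 * h⁻¹ = y.1 := by
    intro h hh
    rw [hF, Finset.mem_filter] at hh
    rw [← hh.2]
  have hy2 : 1 ≤ y.2 := by
    rw [hI, Finset.mem_product, Finset.mem_Icc] at hyI
    exact hyI.2.1
  have hFne : F.Nonempty := by
    rw [Finset.nonempty_iff_ne_empty]
    intro h0
    rw [h0, Finset.card_empty, Nat.mul_zero] at hy
    have := Finset.card_pos.2 ⟨t0, ht0⟩
    omega
  obtain ⟨h0, hh0⟩ := hFne
  have hFT : ∀ h ∈ F, h ∈ T := fun h hh => (Finset.mem_filter.1 hh).1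
  refine ⟨y.2, hy2, ?_⟩
  by_contra hfin
  set K : Subgroup G := Subgroup.centralizer ({k ^ y.2} : Set G) with hK
  set J : ℕ := R / lk with hJ
  -- the set Z
  let f : G × ℕ → G := fun p => h0⁻¹ * p.1 * k ^ p.2
  have hinf : ∀ a b : ℕ, k ^ a = k ^ b → a ≤ b := by
    intro a b hab
    by_contra hlt
    push Not at hlt
    have h1 : k ^ (a - b) = 1 := by
      have h2 : k ^ a = k ^ (a - b) * k ^ b := by rw [← pow_add]; congr 1; omega
      rw [h2] at hab
      exact mul_eq_right.1 hab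
    have h2 := hk (a - b) 0 ⟨[], by simp, by simp, by simp [h1]⟩
    omega
  have hfinj : Set.InjOn f (F ×ˢ Finset.range J : Finset (G × ℕ)) := by
    rintro ⟨a, i⟩ ha ⟨b, j⟩ hb hab
    simp only [Finset.coe_product, Set.mem_prod, Finset.mem_coe] at ha hb
    have hab' : a * k ^ i = b * k ^ j := by
      have : h0⁻¹ * (a * k ^ i) = h0⁻¹ * (b * k ^ j) := by
        simpa [f, mul_assoc] using hab
      exact mul_left_cancel this
    have h1 : a = b := by
      refine hT3 a (hFT a ha.1) b (hFT b hb.1) ?_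
      rw [QuotientGroup.eq]
      have h2 : a⁻¹ * b = k ^ i * (k ^ j)⁻¹ := by
        rw [eq_mul_inv_iff_mul_eq, mul_assoc, ← hab']
        group
      rw [h2]
      exact mul_mem (Subgroup.npow_mem_zpowers k i) (inv_mem (Subgroup.npow_mem_zpowers k j))
    subst h1
    have h3 : k ^ i = k ^ j := mul_left_cancel hab'
    have h4 : i = j := le_antisymm (hinf _ _ h3) (hinf _ _ h3.symm)
    rw [h4]
  set Z : Set G := f '' (F ×ˢ Finset.range J : Finset (G × ℕ)) with hZ
  have hZfin : Z.Finite := (Finset.finite_toSet _).image _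
  have hZc : Z.ncard = F.card * J := by
    rw [hZ, hfinj.ncard_image, Set.ncard_coe_finset, Finset.card_product, Finset.card_range]
  have hZK : ∀ z ∈ Z, z ∈ K := by
    rintro _ ⟨⟨a, i⟩, ha, rfl⟩
    simp only [Finset.coe_product, Set.mem_prod, Finset.mem_coe] at ha
    rw [hK, Subgroup.mem_centralizer_singleton_iff]
    have h1 := hFs a ha.1
    have h2 := hFs h0 hh0
    have h3 : a * k ^ y.2 = y.1 * a := by rw [← h1]; group
    have h4 : y.1 * h0 = h0 * k ^ y.2 := by rw [← h2]; group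
    have h5 : h0⁻¹ * y.1 = k ^ y.2 * h0⁻¹ := by
      rw [← h2]; group
    have h6 : (k ^ i) * k ^ y.2 = k ^ y.2 * k ^ i := by rw [← pow_add, ← pow_add, add_comm]
    show (h0⁻¹ * a * k ^ i) * k ^ y.2 = k ^ y.2 * (h0⁻¹ * a * k ^ i)
    calc (h0⁻¹ * a * k ^ i) * k ^ y.2 = h0⁻¹ * (a * k ^ y.2) * k ^ i := by
          rw [mul_assoc, h6]; simp only [mul_assoc]
      _ = (h0⁻¹ * y.1) * a * k ^ i := by rw [h3]; simp only [mul_assoc]
      _ = _ := by rw [h5]; simp only [mul_assoc]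
  have hJlk : J * lk ≤ R := Nat.div_mul_le_self R lk
  have hZb : ∀ z ∈ Z, z ∈ ball S (3 * R) := by
    rintro _ ⟨⟨a, i⟩, ha, rfl⟩
    simp only [Finset.coe_product, Set.mem_prod, Finset.mem_coe, Finset.mem_range] at ha
    have h1 := ball_mul (ball_mul (ce3_inv (hT2 h0 (hFT _ hh0))) (hT2 a (hFT _ ha.1))) (ce3_pow hlk i)
    refine ball_mono ?_ h1
    have : i * lk ≤ J * lk := Nat.mul_le_mul_right _ ha.2.le
    omega
  have h1 := le_ncard_coset hS hgen hfin R
  have h2 := coset_count (K := K) (X := ball S R) (Z := Z) (ball_finite hS R) hZfin hZK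
  have h3 : {g : G | ∃ x ∈ ball S R, ∃ z ∈ Z, g = x * z}.ncard ≤ growth S (4 * R) := by
    refine Set.ncard_le_ncard ?_ (ball_finite hS _)
    rintro _ ⟨x, hx, z, hz, rfl⟩
    have := ball_mul hx (hZb z hz)
    rwa [show R + 3 * R = 4 * R by ring] at this
  have h4 : (R + 1) * (F.card * J) ≤ R ^ 2 * w := by
    calc (R + 1) * (F.card * J) ≤ _ * Z.ncard := by
          rw [← hZc]; exact Nat.mul_le_mul_right _ h1
      _ ≤ _ := (h2.trans h3).trans hgr
  have hJ2 : R ≤ 2 * lk * J := by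
    have h5 := Nat.div_add_mod R lk
    have h6 := Nat.mod_lt R (show 0 < lk by omega)
    have h7 : 1 ≤ J := (Nat.one_le_div_iff (by omega)).2 (by omega)
    nlinarith
  have h5 : F.card ≤ 2 * lk * w := by
    by_contra hcon
    push Not at hcon
    have h6 : R * (2 * lk * w + 1) ≤ 2 * lk * J * F.card := Nat.mul_le_mul hJ2 hcon
    have h7 : (R + 1) * (R * (2 * lk * w + 1)) ≤ 2 * lk * (R ^ 2 * w) := by
      calc (R + 1) * (R * (2 * lk * w + 1)) ≤ (R + 1) * (2 * lk * J * F.card) :=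
            Nat.mul_le_mul_left _ h6
        _ = 2 * lk * ((R + 1) * (F.card * J)) := by ring
        _ ≤ _ := Nat.mul_le_mul_left _ h4
    nlinarith
  have h6 : R ≤ 48 * lk * c0 * n ^ 2 * w * growth S (2 * n) := by
    calc R ≤ 12 * n * T.card := hT1
      _ ≤ 12 * n * (I.card * F.card) := Nat.mul_le_mul_left _ hy
      _ ≤ 12 * n * (growth S (2 * n) * (c0 * (2 * n)) * (2 * lk * w)) := by
          rw [hIc]; gcongr
      _ = _ := by ring
  omega
-- END ce3

-- BEGIN ce4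
/-- the arithmetic of the choice of the parameters -/
private theorem ce4_arith {lk c0 C d A n₁ W R n g : ℕ} (hA : A = 144 * lk ^ 2 + n₁ + lk + 1)
    (hW : 1 ≤ W) (hn : n = (12 * lk * W) ^ 2 + n₁ + lk + 1)
    (hg : g ≤ C * (2 * n) ^ d) (hWR : W ^ (2 * d + 6) ≤ R)
    (hR : (48 * lk * c0 * C * 2 ^ d * A ^ (d + 2) + 6 * A + 1) ^ (2 * d + 6) < R) :
    6 * n ≤ R ∧ 48 * lk * c0 * n ^ 2 * W * g < R := by
  have hnA : n ≤ A * W ^ 2 := by
    have h1 : 1 ≤ W ^ 2 := Nat.one_le_pow _ _ hW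
    have h2 : n₁ + lk + 1 ≤ (n₁ + lk + 1) * W ^ 2 := Nat.le_mul_of_pos_right _ h1
    have h3 : A * W ^ 2 = (12 * lk * W) ^ 2 + (n₁ + lk + 1) * W ^ 2 := by rw [hA]; ring
    rw [h3, hn]
    omega
  generalize hK : 48 * lk * c0 * C * 2 ^ d * A ^ (d + 2) + 6 * A + 1 = K at hR
  have hKW : K * W ^ (2 * d + 5) < R := by
    rcases Nat.lt_or_ge K W with h | h
    · calc K * W ^ (2 * d + 5) < W * W ^ (2 * d + 5) :=
            Nat.mul_lt_mul_of_pos_right h (Nat.pow_pos (by omega))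
        _ = W ^ (2 * d + 6) := by ring
        _ ≤ R := hWR
    · calc K * W ^ (2 * d + 5) ≤ K * K ^ (2 * d + 5) :=
            Nat.mul_le_mul_left _ (Nat.pow_le_pow_left h _)
        _ = K ^ (2 * d + 6) := by ring
        _ < R := hR
  constructor
  · have h6 : 6 * A ≤ K := by omega
    have h7 : W ^ 2 ≤ W ^ (2 * d + 5) := Nat.pow_le_pow_right hW (by omega)
    calc 6 * n ≤ 6 * (A * W ^ 2) := Nat.mul_le_mul_left _ hnA
      _ = 6 * A * W ^ 2 := by ring
      _ ≤ K * W ^ (2 * d + 5) := Nat.mul_le_mul h6 h7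
      _ ≤ R := hKW.le
  · have h8 : 48 * lk * c0 * C * 2 ^ d * A ^ (d + 2) ≤ K := by omega
    calc 48 * lk * c0 * n ^ 2 * W * g
        ≤ 48 * lk * c0 * (A * W ^ 2) ^ 2 * W * (C * (2 * (A * W ^ 2)) ^ d) := by
          have e1 : n ^ 2 ≤ (A * W ^ 2) ^ 2 := Nat.pow_le_pow_left hnA _
          have e2 : g ≤ C * (2 * (A * W ^ 2)) ^ d :=
            hg.trans (Nat.mul_le_mul_left _ (Nat.pow_le_pow_left (Nat.mul_le_mul_left _ hnA) _))
          exact Nat.mul_le_mul (Nat.mul_le_mul_right _ (Nat.mul_le_mul_left _ e1)) e2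
      _ = 48 * lk * c0 * C * 2 ^ d * A ^ (d + 2) * W ^ (2 * d + 5) := by ring
      _ ≤ K * W ^ (2 * d + 5) := Nat.mul_le_mul_right _ h8
      _ < R := hKW

/-- the choice of the parameters -/
theorem exists_cent (hS : S.Finite) (hgen : Subgroup.closure S = ⊤) {C d : ℕ}
    (hpoly : ∀ n : ℕ, 1 ≤ n → growth S n ≤ C * n ^ d)
    (hquad : ∀ D : ℕ, ∃ᶠ R : ℕ in atTop, ∃ w : ℕ, w ^ D ≤ R ∧ growth S (4 * R) ≤ R ^ 2 * w)
    {n₁ : ℕ} (hlow : ∀ n : ℕ, n₁ ≤ n → n ^ 3 < growth S n ^ 2) {k : G} {c0 : ℕ}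
    (hk : ∀ j l : ℕ, k ^ j ∈ ball S l → j ≤ c0 * l) (hfi : ¬ (Subgroup.zpowers k).FiniteIndex) :
    ∃ m : ℕ, 1 ≤ m ∧ (Subgroup.centralizer ({k ^ m} : Set G)).FiniteIndex := by
  obtain ⟨l, hl⟩ := mem_ball_of_closure (S := S) (g := k) (by rw [hgen]; exact Subgroup.mem_top k)
  obtain ⟨lk, hlk1, hlk⟩ : ∃ lk : ℕ, 1 ≤ lk ∧ k ∈ ball S lk :=
    ⟨l + 1, by omega, ball_mono (Nat.le_succ l) hl⟩
  obtain ⟨A, hA⟩ : ∃ A, A = 144 * lk ^ 2 + n₁ + lk + 1 := ⟨_, rfl⟩
  obtain ⟨R, ⟨w, hw, hgr⟩, hRb⟩ := ((hquad (2 * d + 6)).and_eventually (eventually_gt_atTop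
    ((48 * lk * c0 * C * 2 ^ d * A ^ (d + 2) + 6 * A + 1) ^ (2 * d + 6)))).exists
  obtain ⟨W, hW1, hWR, hgW⟩ : ∃ W : ℕ, 1 ≤ W ∧ W ^ (2 * d + 6) ≤ R ∧
      growth S (4 * R) ≤ R ^ 2 * W := by
    rcases Nat.eq_zero_or_pos w with h | h
    · refine ⟨1, le_refl _, ?_, ?_⟩
      · rw [one_pow]; omega
      · rw [h, mul_zero] at hgr
        exact hgr.trans (Nat.zero_le _)
    · exact ⟨w, h, hw, hgr⟩
  obtain ⟨n, hn⟩ : ∃ n, n = (12 * lk * W) ^ 2 + n₁ + lk + 1 := ⟨_, rfl⟩
  obtain ⟨h6, h48⟩ := ce4_arith hA hW1 hn (hpoly (2 * n) (by omega)) hWR hRb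
  have hbig : 12 * lk * n * W < growth S n := by
    have h1 := hlow n (by omega)
    by_contra hcon
    have h2 : growth S n ≤ 12 * lk * n * W := not_lt.1 hcon
    have h3 : growth S n ^ 2 ≤ n ^ 3 := by
      calc growth S n ^ 2 ≤ (12 * lk * n * W) ^ 2 := Nat.pow_le_pow_left h2 _
        _ = (12 * lk * W) ^ 2 * n ^ 2 := by ring
        _ ≤ n * n ^ 2 := Nat.mul_le_mul_right _ (by omega)
        _ = n ^ 3 := by ring
    omega
  obtain ⟨T, hT1, hT2, hT3, hT4⟩ := many_stab hS hgen hk hlk hlk1 hfi (R := R) (n := n) (w := W)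
    (by omega) h6 hgW hbig
  exact cent_fi hS hgen hk hlk hlk1 (R := R) (n := n) (w := W) (by omega) h6 hgW h48 hT1 hT2 hT3 hT4
-- END ce4

end Pool.Agent.Gq2
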