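import Pool.Agent.Gq2.Mh
import Pool.Agent.Gq2.Cen

/-!
# Groups of almost quadratic growth
-/

namespace Pool.Agent.Gq2

open Pool.Agent.CTm Filter

variable {G : Type*} [Group G] {S : Set G}

-- BEGIN mn1
private theorem mn1_inv {G : Type*} [Group G] {S : Set G} {g : G} {n : ℕ} (hg : g ∈ ball S n) :
    g⁻¹ ∈ ball S n := by
  obtain ⟨l, h1, h2, rfl⟩ := hg
  refine ⟨(l.map fun y => y⁻¹).reverse, by simpa using h1, ?_, ?_⟩
  · intro y hy
    rw [List.mem_reverse, List.mem_map] at hy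
    obtain ⟨z, hz, rfl⟩ := hy
    rcases h2 z hz with h3 | h3
    · right
      rwa [inv_inv]
    · left
      exact h3
  · rw [List.prod_inv_reverse]

private theorem mn1_pow {k : G} {lk : ℕ} (hlk : k ∈ ball S lk) (j : ℕ) : k ^ j ∈ ball S (j * lk) := by
  induction j with
  | zero => exact ⟨[], by simp, by simp, by simp⟩
  | succ j ih =>
    have h := ball_mul ih hlk
    rw [pow_succ, show (j + 1) * lk = j * lk + lk by ring]
    exact h

private theorem mn1_up {Q : Subgroup G} {B0 : Set Q} {D0 : ℕ} (h : ∀ b ∈ B0, (b : G) ∈ ball S D0) {n : ℕ}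
    {q : Q} (hq : q ∈ ball B0 n) : (q : G) ∈ ball S (D0 * n) := by
  obtain ⟨l, h1, h2, rfl⟩ := hq
  refine ball_mono (Nat.mul_le_mul_left D0 h1) ?_
  clear h1
  induction l with
  | nil => exact ⟨[], by simp, by simp, by simp⟩
  | cons b l ih =>
    have h3 := ih (fun x hx => h2 x (List.mem_cons_of_mem _ hx))
    have h4 : (b : G) ∈ ball S D0 := by
      rcases h2 b (by simp) with hb | hb
      · exact h b hb
      · have := mn1_inv (h _ hb)
        simpa using this
    have h5 := ball_mul h4 h3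
    rw [List.prod_cons, List.length_cons, show D0 * (l.length + 1) = D0 + D0 * l.length by ring]
    simpa using h5

private theorem mn1_down {Q : Type*} [Group Q] {N : Subgroup Q} [N.Normal] {B0 : Set Q} (n : ℕ) :
    ball ((QuotientGroup.mk : Q → Q ⧸ N) '' B0) n ⊆ (QuotientGroup.mk : Q → Q ⧸ N) '' ball B0 n := by
  rintro _ ⟨l, h1, h2, rfl⟩
  have key : ∀ l : List (Q ⧸ N), (∀ x ∈ l, x ∈ (QuotientGroup.mk : Q → Q ⧸ N) '' B0 ∨
      x⁻¹ ∈ (QuotientGroup.mk : Q → Q ⧸ N) '' B0) →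
      ∃ l' : List Q, l'.length = l.length ∧ (∀ x ∈ l', x ∈ B0 ∨ x⁻¹ ∈ B0) ∧
        (QuotientGroup.mk l'.prod : Q ⧸ N) = l.prod := by
    intro l
    induction l with
    | nil => exact fun _ => ⟨[], rfl, by simp, by simp⟩
    | cons b l ih =>
      intro h
      obtain ⟨l', h3, h4, h5⟩ := ih (fun x hx => h x (List.mem_cons_of_mem _ hx))
      obtain ⟨c, hc, hcb⟩ : ∃ c : Q, (c ∈ B0 ∨ c⁻¹ ∈ B0) ∧ (QuotientGroup.mk c : Q ⧸ N) = b := by
        rcases h b (by simp) with ⟨c, hc, rfl⟩ | ⟨c, hc, hcb⟩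
        · exact ⟨c, Or.inl hc, rfl⟩
        · refine ⟨c⁻¹, Or.inr (by simpa using hc), ?_⟩
          rw [QuotientGroup.mk_inv, hcb, inv_inv]
      refine ⟨c :: l', by simp [h3], ?_, ?_⟩
      · intro x hx
        rcases List.mem_cons.1 hx with rfl | hx
        · exact hc
        · exact h4 x hx
      · rw [List.prod_cons, List.prod_cons, QuotientGroup.mk_mul, hcb, h5]
  obtain ⟨l', h3, h4, h5⟩ := key l h2
  exact ⟨l'.prod, ⟨l', by omega, h4, rfl⟩, h5⟩

/-- the growth of the quotient of a subgroup of finite index by a cyclic central subgroup -/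
theorem quot_small (hS : S.Finite) (hgen : Subgroup.closure S = ⊤)
    (hquad : ∀ D : ℕ, ∃ᶠ R : ℕ in atTop, ∃ w : ℕ, w ^ D ≤ R ∧ growth S (4 * R) ≤ R ^ 2 * w)
    {Q : Subgroup G} (hQ : Q.FiniteIndex) {z : Q} (hz : ∀ i : ℤ, z ^ i = 1 → i = 0)
    [(Subgroup.zpowers z).Normal] :
    ∃ B : Set (Q ⧸ Subgroup.zpowers z), B.Finite ∧ Subgroup.closure B = ⊤ ∧
      ∃ᶠ n : ℕ in atTop, growth B n ^ 2 ≤ n ^ 3 := by
  classical
  have hG : Group.FG G := ⟨⟨hS.toFinset, by simpa using hgen⟩⟩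
  have hQfg : Group.FG Q := Subgroup.fg_of_index_ne_zero Q
  obtain ⟨B0, hB0⟩ := Group.fg_def.1 hQfg
  -- a common bound
  have hex : ∀ g : G, ∃ n, g ∈ ball S n := fun g => mem_ball_of_closure (by rw [hgen]; trivial)
  choose len hlen using hex
  set D0 : ℕ := (∑ b ∈ B0, len (b : G)) + 1 with hD0
  have hb0 : ∀ b ∈ (B0 : Set Q), (b : G) ∈ ball S D0 := by
    intro b hb
    refine ball_mono ?_ (hlen (b : G))
    have := Finset.single_le_sum (f := fun b : Q => len (b : G)) (fun _ _ => Nat.zero_le _) (Finset.mem_coe.1 hb)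
    omega
  set lz : ℕ := len (z : G) + 1 with hlz
  have hz0 : (z : G) ∈ ball S lz := ball_mono (by omega) (hlen _)
  refine ⟨(QuotientGroup.mk : Q → Q ⧸ Subgroup.zpowers z) '' (B0 : Set Q), (Finset.finite_toSet B0).image _,
    ?_, ?_⟩
  · have h1 := MonoidHom.map_closure (QuotientGroup.mk' (Subgroup.zpowers z)) (B0 : Set Q)
    rw [hB0] at h1
    have h2 : Subgroup.map (QuotientGroup.mk' (Subgroup.zpowers z)) ⊤ = ⊤ :=
      Subgroup.map_top_of_surjective _ (QuotientGroup.mk'_surjective _)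
    rw [h2] at h1
    exact h1.symm
  · -- the basic inequality
    have hzinj : ∀ a b : ℕ, z ^ a = z ^ b → a = b := by
      intro a b hab
      have h1 : z ^ ((a : ℤ) - b) = 1 := by
        rw [zpow_sub, zpow_natCast, zpow_natCast, hab, mul_inv_cancel]
      have := hz _ h1
      omega
    have hmain : ∀ n J : ℕ, growth ((QuotientGroup.mk : Q → Q ⧸ Subgroup.zpowers z) '' (B0 : Set Q)) n * J ≤
        growth S (D0 * n + J * lz) := by
      intro n J
      set Z : Set Q := (fun j : ℕ => z ^ j) '' (Finset.range J : Finset ℕ) with hZ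
      have hZc : Z.ncard = J := by
        rw [hZ, Set.InjOn.ncard_image (fun a _ b _ hab => hzinj a b hab), Set.ncard_coe_finset,
          Finset.card_range]
      have hZfin : Z.Finite := (Finset.finite_toSet _).image _
      have hX : (ball (B0 : Set Q) n).Finite := ball_finite (Finset.finite_toSet B0) n
      have h1 := coset_count (K := Subgroup.zpowers z) hX hZfin (by
        rintro _ ⟨j, -, rfl⟩
        exact Subgroup.npow_mem_zpowers z j)
      rw [hZc] at h1
      have h2 : growth ((QuotientGroup.mk : Q → Q ⧸ Subgroup.zpowers z) '' (B0 : Set Q)) n ≤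
          ((QuotientGroup.mk : Q → Q ⧸ Subgroup.zpowers z) '' ball (B0 : Set Q) n).ncard :=
        Set.ncard_le_ncard (mn1_down n) (hX.image _)
      have h3 : {g : Q | ∃ x ∈ ball (B0 : Set Q) n, ∃ y ∈ Z, g = x * y}.ncard ≤
          growth S (D0 * n + J * lz) := by
        rw [growth, ← Set.ncard_image_of_injective _ (Subtype.coe_injective (p := fun x => x ∈ Q))]
        refine Set.ncard_le_ncard ?_ (ball_finite hS _)
        rintro _ ⟨_, ⟨x, hx, _, ⟨j, hj, rfl⟩, rfl⟩, rfl⟩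
        have h4 := ball_mul (mn1_up hb0 hx) (mn1_pow hz0 j)
        refine ball_mono ?_ (by simpa using h4)
        rw [Finset.mem_coe, Finset.mem_range] at hj
        have := Nat.mul_le_mul_right lz hj.le
        omega
      calc _ ≤ _ := Nat.mul_le_mul_right J h2
        _ ≤ _ := h1.trans h3
    rw [Filter.frequently_atTop]
    intro N
    set C : ℕ := 32 * lz ^ 2 * D0 ^ 3 with hC
    obtain ⟨R, hR, w, hw, hg⟩ := Filter.frequently_atTop.1 (hquad 3) (N * D0 + C ^ 3 + lz + D0)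
    have hD0pos : 0 < D0 := by omega
    have hlzpos : 0 < lz := by omega
    refine ⟨R / D0, ?_, ?_⟩
    · rw [Nat.le_div_iff_mul_le hD0pos]
      omega
    · set n := R / D0 with hn
      set J := R / lz with hJ
      have h1 := hmain n J
      have h2 : D0 * n ≤ R := Nat.mul_div_le R D0
      have h3 : J * lz ≤ R := Nat.div_mul_le_self R lz
      have h4 : growth S (D0 * n + J * lz) ≤ R ^ 2 * w :=
        (growth_mono hS (by omega)).trans hg
      set g := growth ((QuotientGroup.mk : Q → Q ⧸ Subgroup.zpowers z) '' (B0 : Set Q)) n with hgdef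
      have hRlz : lz ≤ R := by omega
      have hRD : D0 ≤ R := by omega
      have hRpos : 0 < R := by omega
      have hJ2 : R ≤ 2 * lz * J := by
        have h5 := Nat.div_add_mod R lz
        have h6 := Nat.mod_lt R hlzpos
        have h7 : 1 ≤ J := (Nat.one_le_div_iff hlzpos).2 hRlz
        nlinarith
      have hn2 : R ≤ 2 * D0 * n := by
        have h5 := Nat.div_add_mod R D0
        have h6 := Nat.mod_lt R hD0pos
        have h7 : 1 ≤ n := (Nat.one_le_div_iff hD0pos).2 hRD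
        nlinarith
      have h5 : g ≤ 2 * lz * (R * w) := by
        have h6 : g * R ≤ (2 * lz * (R * w)) * R := by
          calc g * R ≤ g * (2 * lz * J) := Nat.mul_le_mul_left _ hJ2
            _ = 2 * lz * (g * J) := by ring
            _ ≤ 2 * lz * (R ^ 2 * w) := Nat.mul_le_mul_left _ (h1.trans h4)
            _ = _ := by ring
        exact Nat.le_of_mul_le_mul_right h6 hRpos
      have hCw : C * w ^ 2 ≤ R := by
        rcases le_total C w with hle | hle
        · calc C * w ^ 2 ≤ w * w ^ 2 := Nat.mul_le_mul_right _ hle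
            _ = w ^ 3 := by ring
            _ ≤ R := hw
        · calc C * w ^ 2 ≤ C * C ^ 2 := Nat.mul_le_mul_left _ (Nat.pow_le_pow_left hle 2)
            _ = C ^ 3 := by ring
            _ ≤ R := by omega
      have h7 : (8 * D0 ^ 3) * g ^ 2 ≤ (8 * D0 ^ 3) * n ^ 3 := by
        calc (8 * D0 ^ 3) * g ^ 2 ≤ (8 * D0 ^ 3) * (2 * lz * (R * w)) ^ 2 :=
              Nat.mul_le_mul_left _ (Nat.pow_le_pow_left h5 2)
          _ = (C * w ^ 2) * R ^ 2 := by rw [hC]; ring
          _ ≤ R * R ^ 2 := Nat.mul_le_mul_right _ hCw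
          _ = R ^ 3 := by ring
          _ ≤ (2 * D0 * n) ^ 3 := Nat.pow_le_pow_left hn2 3
          _ = (8 * D0 ^ 3) * n ^ 3 := by ring
      exact Nat.le_of_mul_le_mul_left h7 (by positivity)
-- END mn1

-- BEGIN mn2
/-- lifting an infinite cyclic subgroup of finite index -/
theorem virtAb_of_quot {Q : Subgroup G} (hQ : Q.FiniteIndex) {z : Q} (hzc : ∀ q : Q, z * q = q * z)
    [(Subgroup.zpowers z).Normal] {v : Q ⧸ Subgroup.zpowers z} (hv : (Subgroup.zpowers v).FiniteIndex) :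
    ∃ A : Subgroup G, A.FiniteIndex ∧ ∀ a ∈ A, ∀ b ∈ A, a * b = b * a := by
  obtain ⟨v', rfl⟩ := QuotientGroup.mk_surjective v
  have hcz : ∀ (j : ℤ) (q : Q), z ^ j * q = q * z ^ j := fun j q =>
    (Commute.zpow_left (show Commute z q from hzc q) j).eq
  have key : ∀ x : Q, x ∈ (Subgroup.zpowers (QuotientGroup.mk v' : Q ⧸ Subgroup.zpowers z)).comap
      (QuotientGroup.mk' (Subgroup.zpowers z)) → ∃ i j : ℤ, x = v' ^ i * z ^ j := by
    intro x hx
    rw [Subgroup.mem_comap, Subgroup.mem_zpowers_iff] at hx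
    obtain ⟨i, hi⟩ := hx
    have h1 : (QuotientGroup.mk (v' ^ i) : Q ⧸ Subgroup.zpowers z) = QuotientGroup.mk x := hi
    rw [QuotientGroup.eq, Subgroup.mem_zpowers_iff] at h1
    obtain ⟨j, hj⟩ := h1
    exact ⟨i, j, by rw [hj]; group⟩
  refine ⟨((Subgroup.zpowers (QuotientGroup.mk v' : Q ⧸ Subgroup.zpowers z)).comap
      (QuotientGroup.mk' (Subgroup.zpowers z))).map Q.subtype, ⟨?_⟩, ?_⟩
  · rw [Subgroup.index_map_subtype, Subgroup.index_comap_of_surjective _ (QuotientGroup.mk'_surjective _)]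
    exact mul_ne_zero hv.index_ne_zero hQ.index_ne_zero
  · rintro a ⟨x, hx, rfl⟩ b ⟨y, hy, rfl⟩
    obtain ⟨i, j, rfl⟩ := key x hx
    obtain ⟨i', j', rfl⟩ := key y hy
    rw [← map_mul, ← map_mul]
    congr 1
    calc v' ^ i * z ^ j * (v' ^ i' * z ^ j')
        = v' ^ i * (z ^ j * (v' ^ i' * z ^ j')) := by group
      _ = v' ^ i * ((v' ^ i' * z ^ j') * z ^ j) := by rw [hcz j]
      _ = v' ^ (i + i') * z ^ (j' + j) := by group
      _ = v' ^ (i' + i) * z ^ (j + j') := by rw [add_comm i, add_comm j]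
      _ = v' ^ i' * ((v' ^ i * z ^ j) * z ^ j') := by group
      _ = v' ^ i' * (z ^ j' * (v' ^ i * z ^ j)) := by rw [hcz j']
      _ = v' ^ i' * z ^ j' * (v' ^ i * z ^ j) := by group
-- END mn2

-- BEGIN mn3
/-- a group of polynomial growth which is almost quadratic infinitely often, with an undistorted element -/
theorem virtAb_of_quad (hS : S.Finite) (hgen : Subgroup.closure S = ⊤) {C d : ℕ}
    (hpoly : ∀ n : ℕ, 1 ≤ n → growth S n ≤ C * n ^ d)
    (hquad : ∀ D : ℕ, ∃ᶠ R : ℕ in atTop, ∃ w : ℕ, w ^ D ≤ R ∧ growth S (4 * R) ≤ R ^ 2 * w)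
    {k : G} {c0 : ℕ} (hk : ∀ j l : ℕ, k ^ j ∈ ball S l → j ≤ c0 * l) :
    ∃ A : Subgroup G, A.FiniteIndex ∧ ∀ a ∈ A, ∀ b ∈ A, a * b = b * a := by
  have hone : (1 : G) ∈ ball S 0 := ⟨[], by simp, by simp, by simp⟩
  have hkn : ∀ j : ℕ, k ^ j = 1 → j = 0 := by
    intro j hj
    have h := hk j 0 (by rw [hj]; exact hone)
    omega
  have hkz : ∀ i : ℤ, k ^ i = 1 → i = 0 := by
    intro i hi
    have h2 : k ^ i.natAbs = 1 := by
      rcases Int.natAbs_eq i with h | h
      · rw [h, zpow_natCast] at hi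
        exact hi
      · rw [h, zpow_neg, inv_eq_one, zpow_natCast] at hi
        exact hi
    have h3 := hkn _ h2
    omega
  have hcyc : ∀ u : G, (Subgroup.zpowers u).FiniteIndex →
      ∃ A : Subgroup G, A.FiniteIndex ∧ ∀ a ∈ A, ∀ b ∈ A, a * b = b * a := by
    intro u hu
    refine ⟨Subgroup.zpowers u, hu, ?_⟩
    rintro a ⟨i, rfl⟩ b ⟨j, rfl⟩
    simp only [← zpow_add, add_comm]
  by_cases hfi : (Subgroup.zpowers k).FiniteIndex
  · exact hcyc k hfi
  have hinf : Infinite G := by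
    refine Infinite.of_injective (fun i : ℤ => k ^ i) ?_
    intro i j hij
    have h1 : k ^ (i - j) = 1 := by
      rw [zpow_sub]
      have h2 : k ^ i = k ^ j := hij
      rw [h2, mul_inv_cancel]
    have := hkz _ h1
    omega
  by_cases hsm : ∃ᶠ n : ℕ in atTop, growth S n ^ 2 ≤ n ^ 3
  · obtain ⟨u, -, hu⟩ := exists_cyclic hS hgen hinf hsm
    exact hcyc u hu
  rw [not_frequently] at hsm
  obtain ⟨n₁, hn₁⟩ := eventually_atTop.1 hsm
  obtain ⟨m, hm, hQ⟩ := exists_cent (n₁ := n₁) hS hgen hpoly hquad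
    (fun n hn => not_le.1 (hn₁ n hn)) hk hfi
  set Q : Subgroup G := Subgroup.centralizer ({k ^ m} : Set G) with hQdef
  have hzQ : k ^ m ∈ Q := by
    rw [hQdef, Subgroup.mem_centralizer_iff]
    intro h hh
    rw [Set.mem_singleton_iff.1 hh]
  have hcomm : ∀ q : Q, (⟨k ^ m, hzQ⟩ : Q) * q = q * ⟨k ^ m, hzQ⟩ := by
    intro q
    apply Subtype.ext
    have h := Subgroup.mem_centralizer_iff.1 q.2 (k ^ m) (Set.mem_singleton _)
    exact h
  have hz : ∀ i : ℤ, (⟨k ^ m, hzQ⟩ : Q) ^ i = 1 → i = 0 := by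
    intro i hi
    have h1 : (k ^ m) ^ i = 1 := by
      have h2 := congrArg (fun x : Q => (x : G)) hi
      simpa using h2
    have h3 : k ^ ((m : ℤ) * i) = 1 := by
      rw [zpow_mul, zpow_natCast]
      exact h1
    have h4 := hkz _ h3
    rcases Int.mul_eq_zero.1 h4 with h5 | h5
    · omega
    · exact h5
  have hnorm : (Subgroup.zpowers (⟨k ^ m, hzQ⟩ : Q)).Normal := by
    constructor
    rintro x ⟨i, rfl⟩ g
    refine ⟨i, ?_⟩
    have hc : Commute (⟨k ^ m, hzQ⟩ : Q) g := hcomm g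
    have hc2 : Commute ((⟨k ^ m, hzQ⟩ : Q) ^ i) g := hc.zpow_left i
    show (⟨k ^ m, hzQ⟩ : Q) ^ i = g * (⟨k ^ m, hzQ⟩ : Q) ^ i * g⁻¹
    rw [← hc2.eq, mul_inv_cancel_right]
  obtain ⟨B, hB, hBg, hBs⟩ := quot_small hS hgen hquad hQ hz
  by_cases hqi : Infinite (Q ⧸ Subgroup.zpowers (⟨k ^ m, hzQ⟩ : Q))
  · obtain ⟨v, -, hv⟩ := exists_cyclic hB hBg hqi hBs
    exact virtAb_of_quot hQ hcomm hv
  · have : Finite (Q ⧸ Subgroup.zpowers (⟨k ^ m, hzQ⟩ : Q)) := not_infinite_iff_finite.1 hqi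
    exact virtAb_of_quot (v := 1) hQ hcomm inferInstance
-- END mn3

end Pool.Agent.Gq2
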