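import Pool.Agent.Gq2.Sch

/-!
# Groups of small growth: the argument of Morse and Hedlund
-/

namespace Pool.Agent.Gq2

open Pool.Agent.CTm Filter

-- BEGIN mh1
/-- the factor of length `i` at place `t` -/
private def mh1_w {α : Type*} (ω : ℕ → α) (i t : ℕ) : Fin i → α := fun j => ω (t + j)

private theorem mh1_image {α : Type*} (ω : ℕ → α) (j : ℕ) :
    (fun f : Fin (j + 1) → α => fun k : Fin j => f k.castSucc) '' Set.range (mh1_w ω (j + 1)) =
      Set.range (mh1_w ω j) := by
  ext f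
  constructor
  · rintro ⟨_, ⟨t, rfl⟩, rfl⟩
    exact ⟨t, rfl⟩
  · rintro ⟨t, rfl⟩
    exact ⟨mh1_w ω (j + 1) t, ⟨t, rfl⟩, rfl⟩

private theorem mh1_fin {α : Type*} (ω : ℕ → α) {i j : ℕ} (hij : j ≤ i)
    (h : (Set.range (mh1_w ω i)).Finite) : (Set.range (mh1_w ω j)).Finite := by
  induction i, hij using Nat.le_induction with
  | base => exact h
  | succ i _ ih =>
    apply ih
    rw [← mh1_image]
    exact h.image _

private theorem mh1_step {α : Type*} (ω : ℕ → α) {j : ℕ}
    (hinj : Set.InjOn (fun f : Fin (j + 1) → α => fun k : Fin j => f k.castSucc) (Set.range (mh1_w ω (j + 1))))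
    {t t' : ℕ} (h : mh1_w ω j t = mh1_w ω j t') :
    ω (t + j) = ω (t' + j) ∧ mh1_w ω j (t + 1) = mh1_w ω j (t' + 1) := by
  have e : mh1_w ω (j + 1) t = mh1_w ω (j + 1) t' := hinj ⟨t, rfl⟩ ⟨t', rfl⟩ h
  refine ⟨?_, ?_⟩
  · have := congrFun e (Fin.last j)
    simpa [mh1_w] using this
  · funext k
    have := congrFun e k.succ
    simp only [mh1_w, Fin.val_succ] at this ⊢
    rw [show t + 1 + (k : ℕ) = t + ((k : ℕ) + 1) by omega, show t' + 1 + (k : ℕ) = t' + ((k : ℕ) + 1) by omega]
    exact this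

/-- Morse and Hedlund: few factors of one length -/
theorem morse_hedlund {α : Type*} (ω : ℕ → α) {i : ℕ}
    (hfin : {l : List α | ∃ t, l = List.ofFn fun j : Fin i => ω (t + j)}.Finite)
    (h : {l : List α | ∃ t, l = List.ofFn fun j : Fin i => ω (t + j)}.ncard ≤ i) :
    ∃ t0 q : ℕ, 0 < q ∧ ∀ t, t0 ≤ t → ω (t + q) = ω t := by
  have hset : {l : List α | ∃ t, l = List.ofFn fun j : Fin i => ω (t + j)} =
      List.ofFn '' Set.range (mh1_w ω i) := by
    ext l
    constructor
    · rintro ⟨t, rfl⟩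
      exact ⟨mh1_w ω i t, ⟨t, rfl⟩, rfl⟩
    · rintro ⟨_, ⟨t, rfl⟩, rfl⟩
      exact ⟨t, rfl⟩
  rw [hset] at hfin h
  have hfi : (Set.range (mh1_w ω i)).Finite := Set.Finite.of_finite_image hfin (List.ofFn_injective.injOn)
  rw [Set.ncard_image_of_injective _ List.ofFn_injective] at h
  have key : ∃ j, j < i ∧ (Set.range (mh1_w ω j)).ncard = (Set.range (mh1_w ω (j + 1))).ncard := by
    by_contra hno
    push Not at hno
    have hall : ∀ j, j ≤ i → j + 1 ≤ (Set.range (mh1_w ω j)).ncard := by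
      intro j
      induction j with
      | zero =>
        intro _
        have : 0 < (Set.range (mh1_w ω 0)).ncard :=
          (Set.ncard_pos (mh1_fin ω (Nat.zero_le i) hfi)).2 ⟨_, ⟨0, rfl⟩⟩
        omega
      | succ j ih =>
        intro hj
        have h1 := ih (by omega)
        have h2 : (Set.range (mh1_w ω j)).ncard ≤ (Set.range (mh1_w ω (j + 1))).ncard := by
          rw [← mh1_image ω j]
          exact Set.ncard_image_le (mh1_fin ω hj hfi)
        have h3 := hno j (by omega)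
        omega
    have := hall i le_rfl
    omega
  obtain ⟨j, hj, hcard⟩ := key
  have hinj : Set.InjOn (fun f : Fin (j + 1) → α => fun k : Fin j => f k.castSucc)
      (Set.range (mh1_w ω (j + 1))) := by
    apply Set.injOn_of_ncard_image_eq
    · rw [mh1_image, hcard]
    · exact mh1_fin ω hj hfi
  have hnotinj : ¬ Function.Injective (mh1_w ω j) := fun hi =>
    Set.infinite_range_of_injective hi (mh1_fin ω hj.le hfi)
  have hex : ∃ t t' : ℕ, t < t' ∧ mh1_w ω j t = mh1_w ω j t' := by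
    rw [Function.Injective] at hnotinj
    push Not at hnotinj
    obtain ⟨a, b, hab, hne⟩ := hnotinj
    rcases lt_or_gt_of_ne hne with hlt | hlt
    · exact ⟨a, b, hlt, hab⟩
    · exact ⟨b, a, hlt, hab.symm⟩
  obtain ⟨t, t', htt, he⟩ := hex
  have hs : ∀ s, mh1_w ω j (t + s) = mh1_w ω j (t' + s) := by
    intro s
    induction s with
    | zero => exact he
    | succ s ih => exact (mh1_step ω hinj ih).2
  refine ⟨t + j, t' - t, by omega, ?_⟩
  intro u hu
  obtain ⟨s, rfl⟩ : ∃ s, u = t + s + j := ⟨u - t - j, by omega⟩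
  have := (mh1_step ω hinj (hs s)).1
  rw [this, show t + s + j + (t' - t) = t' + s + j by omega]
-- END mh1

variable {G : Type*} [Group G] {S : Set G}

-- BEGIN mh2
/-- words over the generators and their inverses -/
private def mh2_Wd (S : Set G) (l : List G) : Prop := ∀ x ∈ l, x ∈ S ∨ x⁻¹ ∈ S

private def mh2_W (B : ℕ) (r : G → ℕ) (l : List G) : ℕ := Nat.ofDigits B (l.map r)

/-- shortlex geodesic words -/
private def mh2_SL (S : Set G) (B : ℕ) (r : G → ℕ) (l : List G) : Prop :=
  mh2_Wd S l ∧ (∀ n, l.prod ∈ ball S n → l.length ≤ n) ∧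
    ∀ m : List G, mh2_Wd S m → m.length = l.length → m.prod = l.prod → mh2_W B r l ≤ mh2_W B r m

omit [Group G] in
private theorem mh2_W_append (B : ℕ) (r : G → ℕ) (a b : List G) :
    mh2_W B r (a ++ b) = mh2_W B r a + B ^ a.length * mh2_W B r b := by
  simp [mh2_W, Nat.ofDigits_append]

private theorem mh2_factor {B : ℕ} (hB : 0 < B) {r : G → ℕ} {a b c : List G}
    (h : mh2_SL S B r (a ++ (b ++ c))) : mh2_SL S B r b := by
  obtain ⟨h1, h2, h3⟩ := h
  have ha : mh2_Wd S a := fun x hx => h1 x (by simp [hx])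
  have hb : mh2_Wd S b := fun x hx => h1 x (by simp [hx])
  have hc : mh2_Wd S c := fun x hx => h1 x (by simp [hx])
  refine ⟨hb, ?_, ?_⟩
  · rintro n ⟨b', hl, hw, hp⟩
    have h4 := h2 (a.length + (n + c.length)) ⟨a ++ (b' ++ c), by
      simp only [List.length_append]; omega, by
      intro x hx
      rcases List.mem_append.1 hx with hx | hx
      · exact ha x hx
      rcases List.mem_append.1 hx with hx | hx
      · exact hw x hx
      · exact hc x hx, by simp only [List.prod_append, hp]⟩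
    simp only [List.length_append] at h4
    omega
  · intro m hm hml hmp
    have h4 := h3 (a ++ (m ++ c)) (by
      intro x hx
      rcases List.mem_append.1 hx with hx | hx
      · exact ha x hx
      rcases List.mem_append.1 hx with hx | hx
      · exact hm x hx
      · exact hc x hx) (by simp only [List.length_append, hml])
      (by simp only [List.prod_append, hmp])
    rw [mh2_W_append, mh2_W_append, mh2_W_append, mh2_W_append, hml] at h4
    have h5 : B ^ a.length * (mh2_W B r b + B ^ b.length * mh2_W B r c) ≤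
        B ^ a.length * (mh2_W B r m + B ^ b.length * mh2_W B r c) := by omega
    have h6 := Nat.le_of_mul_le_mul_left h5 (Nat.pow_pos hB)
    omega

private theorem mh2_inj {B : ℕ} (hB : 1 < B) {r : G → ℕ} (hr : ∀ x, (x ∈ S ∨ x⁻¹ ∈ S) → r x < B)
    (hri : ∀ x y, (x ∈ S ∨ x⁻¹ ∈ S) → (y ∈ S ∨ y⁻¹ ∈ S) → r x = r y → x = y) {a b : List G}
    (ha : mh2_SL S B r a) (hb : mh2_SL S B r b) (hp : a.prod = b.prod) : a = b := by
  have hl1 : a.length ≤ b.length := ha.2.1 _ ⟨b, le_rfl, hb.1, hp.symm⟩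
  have hl2 : b.length ≤ a.length := hb.2.1 _ ⟨a, le_rfl, ha.1, hp⟩
  have hl : a.length = b.length := le_antisymm hl1 hl2
  have hw : mh2_W B r a = mh2_W B r b :=
    le_antisymm (ha.2.2 b hb.1 hl.symm hp.symm) (hb.2.2 a ha.1 hl hp)
  have h1 : a.map r = b.map r := by
    refine Nat.ofDigits_inj_of_len_eq hB (by simpa using hl) ?_ ?_ hw
    · intro x hx
      obtain ⟨y, hy, rfl⟩ := List.mem_map.1 hx
      exact hr y (ha.1 y hy)
    · intro x hx
      obtain ⟨y, hy, rfl⟩ := List.mem_map.1 hx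
      exact hr y (hb.1 y hy)
  refine List.ext_getElem hl ?_
  intro i hi hi'
  have h2 : (a.map r)[i]'(by simpa using hi) = (b.map r)[i]'(by simpa using hi') := by
    simp only [h1]
  rw [List.getElem_map, List.getElem_map] at h2
  exact hri _ _ (ha.1 _ (List.getElem_mem hi)) (hb.1 _ (List.getElem_mem hi')) h2

private theorem mh2_exists {B : ℕ} (r : G → ℕ) (hS : S.Finite)
    (hgen : Subgroup.closure S = ⊤) (hinf : Infinite G) (n : ℕ) :
    ∃ l : List G, n ≤ l.length ∧ mh2_SL S B r l := by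
  classical
  obtain ⟨g, hg⟩ : ∃ g : G, g ∉ ball S n := by
    by_contra hcon
    push Not at hcon
    have h1 : (Set.univ : Set G) ⊆ ball S n := fun g _ => hcon g
    exact Set.infinite_univ ((ball_finite hS n).subset h1)
  have hex : ∃ k, g ∈ ball S k := mem_ball_of_closure (by rw [hgen]; exact Subgroup.mem_top g)
  obtain ⟨k, hk, hkmin⟩ : ∃ k, g ∈ ball S k ∧ ∀ j, g ∈ ball S j → k ≤ j :=
    ⟨Nat.find hex, Nat.find_spec hex, fun j hj => Nat.find_min' hex hj⟩
  have hnk : n ≤ k := by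
    by_contra hcon
    exact hg (ball_mono (by omega) hk)
  -- the set of values of the weight
  have hne : ∃ v, ∃ l : List G, mh2_Wd S l ∧ l.length = k ∧ l.prod = g ∧ mh2_W B r l = v := by
    obtain ⟨l, h1, h2, h3⟩ := hk
    have h4 : k ≤ l.length := hkmin _ ⟨l, le_rfl, h2, h3⟩
    exact ⟨_, l, h2, le_antisymm h1 h4, h3, rfl⟩
  obtain ⟨l, h1, h2, h3, h4⟩ := Nat.find_spec hne
  refine ⟨l, by omega, h1, ?_, ?_⟩
  · intro j hj
    rw [h3] at hj
    rw [h2]
    exact hkmin j hj
  · intro m hm hml hmp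
    rw [h4]
    exact Nat.find_min' hne ⟨m, hm, by rw [hml, h2], by rw [hmp, h3], rfl⟩

/-- an infinite word all of whose factors are shortlex geodesics -/
theorem exists_ray (hS : S.Finite) (hgen : Subgroup.closure S = ⊤) (hinf : Infinite G) :
    ∃ ω : ℕ → G, (∀ t, ω t ∈ S ∨ (ω t)⁻¹ ∈ S) ∧
      (∀ t i n : ℕ, (List.ofFn fun j : Fin i => ω (t + j)).prod ∈ ball S n → i ≤ n) ∧
      ∀ s t i : ℕ, (List.ofFn fun j : Fin i => ω (s + j)).prod = (List.ofFn fun j : Fin i => ω (t + j)).prod →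
        (List.ofFn fun j : Fin i => ω (s + j)) = List.ofFn fun j : Fin i => ω (t + j) := by
  classical
  have hU : {x : G | x ∈ S ∨ x⁻¹ ∈ S}.Finite := by
    have h1 : {x : G | x ∈ S ∨ x⁻¹ ∈ S} = S ∪ S⁻¹ := by
      ext x
      simp
    rw [h1]
    exact hS.union hS.inv
  obtain ⟨r, B, hB, hr, hri⟩ : ∃ (r : G → ℕ) (B : ℕ), 1 < B ∧ (∀ x, (x ∈ S ∨ x⁻¹ ∈ S) → r x < B) ∧
      ∀ x y, (x ∈ S ∨ x⁻¹ ∈ S) → (y ∈ S ∨ y⁻¹ ∈ S) → r x = r y → x = y := by
    obtain ⟨f, hf⟩ := Set.countable_iff_exists_injOn.1 hU.countable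
    obtain ⟨M, hM⟩ := (hU.image f).bddAbove
    refine ⟨f, M + 2, by omega, ?_, fun x y hx hy hxy => hf hx hy hxy⟩
    intro x hx
    have := hM (Set.mem_image_of_mem f hx)
    omega
  choose w hwl hwSL using fun n => mh2_exists (B := B) r hS hgen hinf n
  -- limit along an ultrafilter
  let 𝒰 : Ultrafilter ℕ := Filter.hyperfilter ℕ
  have hbig : ∀ k : ℕ, {n : ℕ | k ≤ n} ∈ (𝒰 : Filter ℕ) := by
    intro k
    exact Nat.hyperfilter_le_atTop (Filter.mem_atTop k)
  have hlim : ∀ t : ℕ, ∃ x : G, (x ∈ S ∨ x⁻¹ ∈ S) ∧ {n : ℕ | (w n)[t]? = some x} ∈ (𝒰 : Filter ℕ) := by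
    intro t
    have h1 : (⋃ x ∈ {x : G | x ∈ S ∨ x⁻¹ ∈ S}, {n : ℕ | (w n)[t]? = some x}) ∈ 𝒰 := by
      refine Filter.mem_of_superset (hbig (t + 1)) ?_
      intro n hn
      have hn' : t + 1 ≤ n := hn
      have hlt : t < (w n).length := lt_of_lt_of_le (by omega) (hwl n)
      refine Set.mem_iUnion₂.2 ⟨(w n)[t], (hwSL n).1 _ (List.getElem_mem hlt), ?_⟩
      exact List.getElem?_eq_getElem hlt
    rw [Ultrafilter.finite_biUnion_mem_iff hU] at h1
    obtain ⟨x, hx, hx'⟩ := h1
    exact ⟨x, hx, hx'⟩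
  choose ω hω hω' using hlim
  have hpre : ∀ k : ℕ, ∃ n : ℕ, k ≤ (w n).length ∧ ∀ t, t < k → (w n)[t]? = some (ω t) := by
    intro k
    have h1 : (⋂ t ∈ Finset.range k, {n : ℕ | (w n)[t]? = some (ω t)}) ∈ (𝒰 : Filter ℕ) := by
      rw [Filter.biInter_finset_mem]
      intro t _
      exact hω' t
    obtain ⟨n, hn1, hn2⟩ := (𝒰.neBot'.nonempty_of_mem (Filter.inter_mem h1 (hbig k)))
    refine ⟨n, le_trans hn2 (hwl n), fun t ht => ?_⟩
    exact (Set.mem_iInter₂.1 hn1) t (Finset.mem_range.2 ht)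
  have hfac : ∀ t i : ℕ, mh2_SL S B r (List.ofFn fun j : Fin i => ω (t + j)) := by
    intro t i
    obtain ⟨n, hn, hn'⟩ := hpre (t + i)
    have h1 : ((w n).drop t).take i = List.ofFn fun j : Fin i => ω (t + j) := by
      refine List.ext_getElem ?_ ?_
      · rw [List.length_take, List.length_drop, List.length_ofFn]
        omega
      · intro j hj hj'
        rw [List.length_ofFn] at hj'
        rw [List.getElem_take, List.getElem_drop, List.getElem_ofFn]
        have h2 := hn' (t + j) (by omega)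
        have h3 : t + j < (w n).length := by omega
        rw [List.getElem?_eq_getElem h3] at h2
        exact Option.some.inj h2
    have h2 : w n = (w n).take t ++ (((w n).drop t).take i ++ ((w n).drop t).drop i) := by
      rw [List.take_append_drop, List.take_append_drop]
    have h3 := hwSL n
    rw [h2] at h3
    rw [← h1]
    exact mh2_factor (by omega) h3
  refine ⟨ω, hω, fun t i n h => ?_, fun s t i h => ?_⟩
  · have h1 := (hfac t i).2.1 n h
    rwa [List.length_ofFn] at h1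
  · exact mh2_inj hB hr hri (hfac s i) (hfac t i) h
-- END mh2

-- BEGIN mh3
omit [Group G] in
private theorem mh3_ofFn (f : ℕ → G) (n : ℕ) :
    (List.ofFn fun j : Fin n => f j) = (List.range n).map f := by
  apply List.ext_getElem <;> simp

private theorem mh3_mem {ω : ℕ → G} (hω : ∀ t, ω t ∈ S ∨ (ω t)⁻¹ ∈ S) (t i : ℕ) :
    (List.ofFn fun j : Fin i => ω (t + j)).prod ∈ ball S i := by
  refine ⟨_, ?_, ?_, rfl⟩
  · simp
  · intro x hx
    rw [List.mem_ofFn] at hx
    obtain ⟨j, rfl⟩ := hx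
    exact hω _

private theorem mh3_small (hS : S.Finite) (h : ∃ᶠ n : ℕ in atTop, growth S n ^ 2 ≤ n ^ 3)
    {ω : ℕ → G} (hω1 : ∀ t, ω t ∈ S ∨ (ω t)⁻¹ ∈ S)
    (hω2 : ∀ t i n : ℕ, (List.ofFn fun j : Fin i => ω (t + j)).prod ∈ ball S n → i ≤ n)
    (hω3 : ∀ s t i : ℕ, (List.ofFn fun j : Fin i => ω (s + j)).prod =
      (List.ofFn fun j : Fin i => ω (t + j)).prod →
        (List.ofFn fun j : Fin i => ω (s + j)) = List.ofFn fun j : Fin i => ω (t + j)) :
    ∃ i : ℕ, {l : List G | ∃ t, l = List.ofFn fun j : Fin i => ω (t + j)}.Finite ∧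
      {l : List G | ∃ t, l = List.ofFn fun j : Fin i => ω (t + j)}.ncard ≤ i := by
  have hinj : ∀ i, Set.InjOn List.prod
      {l : List G | ∃ t, l = List.ofFn fun j : Fin i => ω (t + j)} := by
    rintro i _ ⟨s, rfl⟩ _ ⟨t, rfl⟩ hst
    exact hω3 s t i hst
  have hsub : ∀ i, List.prod '' {l : List G | ∃ t, l = List.ofFn fun j : Fin i => ω (t + j)} ⊆
      ball S i := by
    rintro i _ ⟨_, ⟨t, rfl⟩, rfl⟩
    exact mh3_mem hω1 t i
  have hfin : ∀ i, {l : List G | ∃ t, l = List.ofFn fun j : Fin i => ω (t + j)}.Finite := fun i =>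
    Set.Finite.of_finite_image ((ball_finite hS i).subset (hsub i)) (hinj i)
  by_contra hcon
  have hcon' : ∀ i, i < {l : List G | ∃ t, l = List.ofFn fun j : Fin i => ω (t + j)}.ncard := by
    intro i
    by_contra h1
    exact hcon ⟨i, hfin i, not_lt.1 h1⟩
  have hstep : ∀ n, growth S n + (n + 2) ≤ growth S (n + 1) := by
    intro n
    have h1 := Set.union_subset (ball_mono (S := S) (show n ≤ n + 1 by omega)) (hsub (n + 1))
    have h2 : Disjoint (ball S n) (List.prod ''
        {l : List G | ∃ t, l = List.ofFn fun j : Fin (n + 1) => ω (t + j)}) := by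
      rw [Set.disjoint_left]
      rintro g hg ⟨_, ⟨t, rfl⟩, hg'⟩
      rw [← hg'] at hg
      have := hω2 t (n + 1) n hg
      omega
    have h3 := Set.ncard_le_ncard h1 (ball_finite hS _)
    rw [Set.ncard_union_eq h2 (ball_finite hS n) ((hfin _).image _),
      (hinj _).ncard_image] at h3
    have h4 := hcon' (n + 1)
    unfold growth
    omega
  have hgr : ∀ n, (n + 1) * (n + 2) ≤ 2 * growth S n := by
    intro n
    induction n with
    | zero =>
      have h1 : 0 < growth S 0 := by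
        unfold growth
        rw [Set.ncard_pos (ball_finite hS 0)]
        exact ⟨1, [], by simp, by simp, rfl⟩
      omega
    | succ n ih =>
      have := hstep n
      nlinarith
  obtain ⟨n, hn, hn'⟩ := (h.and_eventually (eventually_ge_atTop 4)).exists
  have h1 := hgr n
  have h2 : n * n < 2 * growth S n := by nlinarith
  have h3 : (n * n) ^ 2 < (2 * growth S n) ^ 2 := Nat.pow_lt_pow_left h2 (by norm_num)
  have h4 : 4 * n ^ 3 ≤ n * n ^ 3 := Nat.mul_le_mul_right _ hn'
  nlinarith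

private theorem mh3_pow {ω : ℕ → G} {t0 q : ℕ} (hper : ∀ t, t0 ≤ t → ω (t + q) = ω t) (j : ℕ) :
    (List.ofFn fun k : Fin q => ω (t0 + k)).prod ^ j =
      (List.ofFn fun k : Fin (j * q) => ω (t0 + k)).prod := by
  have hper' : ∀ a k, ω (t0 + (a * q + k)) = ω (t0 + k) := by
    intro a k
    induction a with
    | zero => simp
    | succ a ih =>
      rw [← ih, show t0 + ((a + 1) * q + k) = t0 + (a * q + k) + q by ring]
      exact hper _ (by omega)
  rw [mh3_ofFn (fun k => ω (t0 + k)), mh3_ofFn (fun k => ω (t0 + k))]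
  induction j with
  | zero => simp
  | succ j ih =>
    rw [pow_succ, ih, show (j + 1) * q = j * q + q by ring, List.range_add, List.map_append,
      List.prod_append, List.map_map]
    congr 2
    apply List.map_congr_left
    intro k _
    exact (hper' j k).symm

/-- a group of small growth is virtually cyclic -/
theorem exists_cyclic (hS : S.Finite) (hgen : Subgroup.closure S = ⊤) (hinf : Infinite G)
    (h : ∃ᶠ n : ℕ in atTop, growth S n ^ 2 ≤ n ^ 3) :
    ∃ u : G, (∀ j l : ℕ, u ^ j ∈ ball S l → j ≤ l) ∧ (Subgroup.zpowers u).FiniteIndex := by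
  obtain ⟨ω, hω1, hω2, hω3⟩ := exists_ray hS hgen hinf
  obtain ⟨i, hi1, hi2⟩ := mh3_small hS h hω1 hω2 hω3
  obtain ⟨t0, q, hq, hper⟩ := morse_hedlund ω hi1 hi2
  have hu1 : (List.ofFn fun k : Fin q => ω (t0 + k)).prod ∈ ball S q := mh3_mem hω1 t0 q
  have hu2 : ∀ j l : ℕ, (List.ofFn fun k : Fin q => ω (t0 + k)).prod ^ j ∈ ball S l → j ≤ l := by
    intro j l hj
    rw [mh3_pow hper] at hj
    have := hω2 t0 (j * q) l hj
    nlinarith
  generalize (List.ofFn fun k : Fin q => ω (t0 + k)).prod = u at hu1 hu2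
  refine ⟨u, hu2, ?_⟩
  by_contra hfi
  have hupow : ∀ j : ℕ, u ^ j ∈ ball S (j * q) := by
    intro j
    induction j with
    | zero => exact ⟨[], by simp, by simp, by simp⟩
    | succ j ih =>
      rw [pow_succ, show (j + 1) * q = j * q + q by ring]
      exact ball_mul ih hu1
  have hinj : Function.Injective fun j : ℕ => u ^ j := by
    intro a b hab
    have hmain : ∀ a b : ℕ, a ≤ b → u ^ a = u ^ b → a = b := by
      intro a b hle hab
      have h1 : u ^ (b - a) = 1 := by
        rw [← mul_left_cancel_iff (a := u ^ a), ← pow_add, mul_one, hab]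
        congr 1
        omega
      have h2 := hu2 (b - a) 0 (by rw [h1]; exact ⟨[], by simp, by simp, rfl⟩)
      omega
    rcases le_total a b with hle | hle
    · exact hmain a b hle hab
    · exact (hmain b a hle hab.symm).symm
  have hkey : ∀ n m : ℕ, (n + 1) * (m + 1) ≤ growth S (n + m * q) := by
    intro n m
    have h1 := le_ncard_coset hS hgen hfi n
    have h2 := coset_count (K := Subgroup.zpowers u) (ball_finite hS n)
      (Z := (fun j : ℕ => u ^ j) '' Set.Iic m) ((Set.finite_Iic m).image _)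
      (by rintro _ ⟨j, _, rfl⟩; exact Subgroup.npow_mem_zpowers u j)
    rw [Set.ncard_image_of_injective _ hinj] at h2
    have h3 : (Set.Iic m).ncard = m + 1 := by
      rw [← Finset.coe_Iic, Set.ncard_coe_finset]
      simp
    rw [h3] at h2
    refine (Nat.mul_le_mul_right _ h1).trans (h2.trans ?_)
    refine Set.ncard_le_ncard ?_ (ball_finite hS _)
    rintro g ⟨x, hx, _, ⟨j, hj, rfl⟩, rfl⟩
    exact ball_mul hx (ball_mono (Nat.mul_le_mul_right _ hj) (hupow j))
  obtain ⟨N, hN, hN'⟩ := (h.and_eventually (eventually_ge_atTop (16 * q ^ 2))).exists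
  have h1 : q * 2 * (N / (q * 2)) ≤ N := Nat.mul_div_le N (q * 2)
  have h2 : N < q * 2 * (N / (q * 2) + 1) := Nat.lt_mul_div_succ N (by omega)
  generalize N / (q * 2) = m at h1 h2
  have h3 : m * q ≤ N := by nlinarith
  have h4 := hkey (N - m * q) m
  rw [Nat.sub_add_cancel h3] at h4
  have h5 : N < 2 * (N - m * q + 1) := by
    have : m * q * 2 ≤ N := by nlinarith
    omega
  have h6 : N * N < (2 * (N - m * q + 1)) * (q * 2 * (m + 1)) :=
    Nat.mul_lt_mul'' h5 h2
  have h7 : N * N < 4 * q * growth S N := by nlinarith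
  have h8 : (N * N) ^ 2 < (4 * q * growth S N) ^ 2 := Nat.pow_lt_pow_left h7 (by norm_num)
  have h9 : 16 * q ^ 2 * growth S N ^ 2 ≤ 16 * q ^ 2 * N ^ 3 := Nat.mul_le_mul_left _ hN
  have h10 : 16 * q ^ 2 * N ^ 3 ≤ N * N ^ 3 := Nat.mul_le_mul_right _ hN'
  nlinarith
-- END mh3

end Pool.Agent.Gq2
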