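import Pool.Agent.CTm.Growth

/-!
# Cosets and Schreier graphs
-/

namespace Pool.Agent.Gq2

open Pool.Agent.CTm Filter

variable {G : Type*} [Group G] {S : Set G}

-- BEGIN sc1
/-- cosets times elements of the subgroup -/
theorem coset_count {K : Subgroup G} {X Z : Set G} (hX : X.Finite) (hZ : Z.Finite) (hZK : ∀ z ∈ Z, z ∈ K) :
    ((QuotientGroup.mk : G → G ⧸ K) '' X).ncard * Z.ncard ≤ {g : G | ∃ x ∈ X, ∃ z ∈ Z, g = x * z}.ncard := by
  classical
  set Y : Set (G ⧸ K) := (QuotientGroup.mk : G → G ⧸ K) '' X with hY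
  have hch : ∀ y : G ⧸ K, ∃ x : G, y ∈ Y → (x ∈ X ∧ (QuotientGroup.mk x : G ⧸ K) = y) := by
    intro y
    by_cases h : y ∈ Y
    · obtain ⟨x, hx, hxy⟩ := h
      exact ⟨x, fun _ => ⟨hx, hxy⟩⟩
    · exact ⟨1, fun h' => absurd h' h⟩
  choose r hr using hch
  have hfin : {g : G | ∃ x ∈ X, ∃ z ∈ Z, g = x * z}.Finite := by
    have : {g : G | ∃ x ∈ X, ∃ z ∈ Z, g = x * z} = (fun p : G × G => p.1 * p.2) '' (X ×ˢ Z) := by
      ext g
      constructor
      · rintro ⟨x, hx, z, hz, rfl⟩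
        exact ⟨(x, z), ⟨hx, hz⟩, rfl⟩
      · rintro ⟨⟨x, z⟩, ⟨hx, hz⟩, rfl⟩
        exact ⟨x, hx, z, hz, rfl⟩
    rw [this]
    exact (hX.prod hZ).image _
  rw [← Set.ncard_prod]
  refine Set.ncard_le_ncard_of_injOn (fun p : (G ⧸ K) × G => r p.1 * p.2) ?_ ?_ hfin
  · rintro ⟨y, z⟩ ⟨hy, hz⟩
    exact ⟨r y, (hr y hy).1, z, hz, rfl⟩
  · rintro ⟨y, z⟩ ⟨hy, hz⟩ ⟨y', z'⟩ ⟨hy', hz'⟩ h
    simp only at h hy hz hy' hz'
    have h1 : (QuotientGroup.mk (r y * z) : G ⧸ K) = y := by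
      rw [QuotientGroup.mk_mul_of_mem _ (hZK z hz)]
      exact (hr y hy).2
    have h2 : (QuotientGroup.mk (r y' * z') : G ⧸ K) = y' := by
      rw [QuotientGroup.mk_mul_of_mem _ (hZK z' hz')]
      exact (hr y' hy').2
    have h3 : y = y' := by rw [← h1, ← h2, h]
    subst h3
    have h4 : z = z' := mul_left_cancel h
    rw [h4]
-- END sc1

-- BEGIN sc2
/-- a geodesic in the Schreier graph of a subgroup of infinite index -/
theorem exists_geod (hS : S.Finite) (hgen : Subgroup.closure S = ⊤) {K : Subgroup G} (hK : ¬ K.FiniteIndex)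
    (R : ℕ) : ∃ h : ℕ → G, (∀ t, t ≤ R → h t ∈ ball S t) ∧ ∀ s t r : ℕ, s ≤ R → t ≤ R → ∀ g ∈ ball S r,
      (QuotientGroup.mk (g * h s) : G ⧸ K) = QuotientGroup.mk (h t) → t ≤ s + r := by
  classical
  have hinf : Infinite (G ⧸ K) := by
    by_contra hcon
    rw [not_infinite_iff_finite] at hcon
    exact hK K.finiteIndex_of_finite_quotient
  -- a coset which misses the ball of radius `R`
  obtain ⟨q, hq⟩ : ∃ q : G ⧸ K, q ∉ (QuotientGroup.mk : G → G ⧸ K) '' ball S R :=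
    ((ball_finite hS R).image _).infinite_compl.nonempty
  obtain ⟨f, rfl⟩ := QuotientGroup.mk_surjective q
  have hex : ∃ n, ∃ g ∈ ball S n, (QuotientGroup.mk g : G ⧸ K) = QuotientGroup.mk f := by
    obtain ⟨n, hn⟩ := mem_ball_of_closure (S := S) (g := f) (by rw [hgen]; trivial)
    exact ⟨n, f, hn, rfl⟩
  set n := Nat.find hex with hn
  obtain ⟨g, ⟨l, h1, h2, h3⟩, h4⟩ := Nat.find_spec hex
  have hRn : R < n := by
    by_contra hcon
    exact hq ⟨g, ball_mono (not_lt.1 hcon) ⟨l, h1, h2, h3⟩, h4⟩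
  have hmem : ∀ t, (l.drop (l.length - t)).prod ∈ ball S t := fun t =>
    ⟨l.drop (l.length - t), by rw [List.length_drop]; omega,
      fun x hx => h2 x (List.mem_of_mem_drop hx), rfl⟩
  refine ⟨fun t => (l.drop (l.length - t)).prod, fun t _ => hmem t, ?_⟩
  intro s t r hs ht u hu he
  have hy : u * (l.drop (l.length - s)).prod ∈ ball S (r + s) := ball_mul hu (hmem s)
  have hz : (l.take (l.length - t)).prod * (u * (l.drop (l.length - s)).prod) ∈
      ball S (l.length - t + (r + s)) :=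
    ball_mul ⟨l.take (l.length - t), by rw [List.length_take]; omega,
      fun x hx => h2 x (List.mem_of_mem_take hx), rfl⟩ hy
  have hz' : (QuotientGroup.mk ((l.take (l.length - t)).prod *
      (u * (l.drop (l.length - s)).prod)) : G ⧸ K) = QuotientGroup.mk f := by
    rw [← h4, ← h3]
    have h5 : l.prod = (l.take (l.length - t)).prod * (l.drop (l.length - t)).prod := by
      rw [← List.prod_append, List.take_append_drop]
    rw [h5, QuotientGroup.eq]
    have he := QuotientGroup.eq.1 he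
    have h6 : ((l.take (l.length - t)).prod * (u * (l.drop (l.length - s)).prod))⁻¹ *
        ((l.take (l.length - t)).prod * (l.drop (l.length - t)).prod) =
        (u * (l.drop (l.length - s)).prod)⁻¹ * (l.drop (l.length - t)).prod := by group
    rw [h6]
    exact he
  have h7 : n ≤ l.length - t + (r + s) := Nat.find_min' hex ⟨_, hz, hz'⟩
  have h8 : l.length ≤ n := h1
  omega
-- END sc2

-- BEGIN sc3
/-- an infinite Schreier graph is not small (use `exists_geod`) -/
theorem le_ncard_coset (hS : S.Finite) (hgen : Subgroup.closure S = ⊤) {K : Subgroup G} (hK : ¬ K.FiniteIndex)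
    (n : ℕ) : n + 1 ≤ ((QuotientGroup.mk : G → G ⧸ K) '' ball S n).ncard := by
  obtain ⟨h, hb, hd⟩ := exists_geod hS hgen hK n
  have one_mem : (1 : G) ∈ ball S 0 := ⟨[], by simp, by simp, rfl⟩
  have hinj : Set.InjOn (fun t : ℕ => (QuotientGroup.mk (h t) : G ⧸ K)) (Set.Iic n) := by
    intro s hs t ht hst
    have hs' : s ≤ n := hs
    have ht' : t ≤ n := ht
    have e1 : (QuotientGroup.mk (h s) : G ⧸ K) = QuotientGroup.mk (h t) := hst
    have h1 : t ≤ s + 0 := hd s t 0 hs' ht' 1 one_mem (by rw [one_mul]; exact e1)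
    have h2 : s ≤ t + 0 := hd t s 0 ht' hs' 1 one_mem (by rw [one_mul]; exact e1.symm)
    omega
  have hcard : (Set.Iic n : Set ℕ).ncard = n + 1 := by
    rw [← Finset.coe_Iic, Set.ncard_coe_finset, Nat.card_Iic]
  have hsub : (fun t : ℕ => (QuotientGroup.mk (h t) : G ⧸ K)) '' Set.Iic n ⊆
      (QuotientGroup.mk : G → G ⧸ K) '' ball S n := by
    rintro _ ⟨t, ht, rfl⟩
    exact ⟨h t, ball_mono (show t ≤ n from ht) (hb t ht), rfl⟩
  calc n + 1 = (Set.Iic n : Set ℕ).ncard := hcard.symm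
    _ = ((fun t : ℕ => (QuotientGroup.mk (h t) : G ⧸ K)) '' Set.Iic n).ncard := hinj.ncard_image.symm
    _ ≤ _ := Set.ncard_le_ncard hsub ((ball_finite hS n).image _)
-- END sc3

end Pool.Agent.Gq2
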